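import Pool.Agent.helper51.VF.SpecB
import Pool.Agent.helper51.VF.Lib

/-!
# Project vf, row ETF
-/

set_option autoImplicit false

namespace Pool.Agent.VF

open Pool.Agent.PC Pool.Agent.QS

universe u

theorem ETF (hFDR : FDR_stmt.{u}) (hPCL : PCL_stmt.{u}) (hSLC : SLC_stmt.{u}) : ETF_stmt.{u} := by
  intro k A F K _ _ _ _ _ _ _ _ _ _ _ _ _ p _ _ hfin hpow Q hQ δ hδ u hu a
  have hQ' : Q.IsPrime := hQ
  set U : K := algebraMap A K u with hU
  set d : K := δ U with hd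
  have hdL : Loc Q d := hδ u
  have hd0 : d ≠ 0 := by
    intro h
    apply hu
    change LocI Q Q d
    rw [h]
    exact LB_I_zero hQ.ne_top
  have hdi : Loc Q d⁻¹ := LB_inv hdL hu
  set δ' : Derivation F K K := d⁻¹ • δ with hδ'
  have hap : ∀ x, δ' x = d⁻¹ * δ x := fun x => rfl
  have h1 : δ' U = 1 := by
    rw [hap]
    exact inv_mul_cancel₀ hd0
  have hL : ∀ b : A, Loc Q (δ' (algebraMap A K b)) := fun b => by
    rw [hap]
    exact LB_mul hdi (hδ b)
  have hne : δ' ≠ 0 := by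
    intro h
    rw [h] at h1
    exact zero_ne_one h1
  obtain ⟨g, hg⟩ := hPCL F K p hfin hpow δ' hne
  obtain ⟨-, s2, s3⟩ := hSLC F K p δ' U (algebraMap F K g) hg h1
  have hker := (hFDR F K p hfin hpow).2.2 δ' hne
  have hex : ∀ i : ℕ, ∃ f : F, algebraMap F K f = EE p δ' U ((⇑δ')^[i] (algebraMap A K a)) :=
    fun i => hker _ (s2 _)
  choose f hf using hex
  have hEE : ∀ i, Loc Q (EE p δ' U ((⇑δ')^[i] (algebraMap A K a))) := by
    intro i
    unfold EE
    refine LB_sum _ _ fun l _ => ?_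
    refine LB_mul (LB_mul (LB_natInv (k := k) hQ.ne_top _) (LB_pow (LB_neg (LB_of hQ.ne_top u)) _)) ?_
    exact LB_der_iter hL _ (LB_der_iter hL _ (LB_of hQ.ne_top a))
  refine ⟨fun i => ((i.factorial : ℕ) : F)⁻¹ * f i, fun i => ?_, ?_⟩
  · rw [map_mul, map_inv₀, map_natCast, hf]
    exact LB_mul (LB_natInv (k := k) hQ.ne_top _) (hEE i)
  · conv_lhs => rw [s3 (algebraMap A K a)]
    refine Finset.sum_congr rfl fun i _ => ?_
    rw [map_mul, map_inv₀, map_natCast, hf]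
    ring

end Pool.Agent.VF
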