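import Pool.Agent.helper51.VF.SpecB

/-!
# Project vf, row FTR: Artin - Tate
-/

set_option autoImplicit false

namespace Pool.Agent.VF

open Pool.Agent.PC Pool.Agent.QS

universe u

theorem FTR : FTR_stmt.{u} := by
  intro k R A _ _ _ _ _ _ _ _ _ _ _ _
  have h1 : Algebra.FiniteType R A := Algebra.FiniteType.of_restrictScalars_finiteType k R A
  have h2 : Module.Finite R A := Algebra.IsIntegral.finite
  exact ⟨fg_of_fg_of_fg k R A Algebra.FiniteType.out h2.1 (FaithfulSMul.algebraMap_injective R A)⟩

end Pool.Agent.VF
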