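import Pool.Agent.helper51.VF.SpecC
import Pool.Agent.helper51.VF.Lib
import Pool.Agent.helper16.PC.CONR

/-!
# Project vf, row NLP
-/

set_option autoImplicit false

namespace Pool.Agent.VF

open Pool.Agent.PC Pool.Agent.QS

universe u

private theorem NLP_res (k A : Type u) [Field k] [IsAlgClosed k] [CommRing A] [Algebra k A] [Algebra.FiniteType k A]
    (m : Ideal A) [m.IsMaximal] (a : A) : ∃ c : k, a - algebraMap k A c ∈ m := by
  letI := Ideal.Quotient.field m
  haveI : Algebra.FiniteType k (A ⧸ m) := inferInstance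
  haveI : Module.Finite k (A ⧸ m) := finite_of_finite_type_of_isJacobsonRing k (A ⧸ m)
  haveI : Algebra.IsIntegral k (A ⧸ m) := Algebra.IsIntegral.of_finite k (A ⧸ m)
  obtain ⟨c, hc⟩ := (IsAlgClosed.algebraMap_bijective_of_isIntegral (k := k) (K := A ⧸ m)).2 (Ideal.Quotient.mk m a)
  refine ⟨c, ?_⟩
  rw [← Ideal.Quotient.eq_zero_iff_mem, map_sub, ← hc, sub_eq_zero]
  rfl

private theorem NLP_ge_sum {K : Type u} [Field K] {v : K → ℤ} (hv : DVal v) {ι : Type} (S : Finset ι) (r : ℤ)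
    (x : ι → K) (h : ∀ i ∈ S, Ge v r (x i)) : Ge v r (∑ i ∈ S, x i) := by
  classical
  induction S using Finset.induction_on with
  | empty => simpa using CON_ge_zero r
  | insert i s his ih =>
    rw [Finset.sum_insert his]
    exact CON_ge_add hv (h i (by simp)) (ih fun j hj => h j (by simp [hj]))

private theorem NLP_wsum (n : ℕ) : 2 * ∑ i : Fin n, (((n + (i : ℕ) : ℕ)) : ℤ) = 3 * n * n - n := by
  have h1 : ∑ i : Fin n, (((n + (i : ℕ) : ℕ)) : ℤ) = ∑ i ∈ Finset.range n, ((n : ℤ) + i) := by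
    rw [Finset.sum_range]
    refine Finset.sum_congr rfl fun i _ => ?_
    push_cast
    rfl
  rw [h1]
  have h2 : ∀ N : ℕ, 2 * ∑ i ∈ Finset.range N, ((n : ℤ) + i) = 2 * n * N + N * N - N := by
    intro N
    induction N with
    | zero => simp
    | succ N ih =>
      rw [Finset.sum_range_succ, mul_add, ih]
      push_cast
      ring
  rw [h2]
  ring

theorem NLP (hFLD : FLD_stmt.{u}) (hPLV : PLV_stmt.{u}) (hLCF : QS.LCF_stmt.{u}) (hWVL : QS.WVL_stmt.{u})
    (hYWV : QS.YWV_stmt.{u}) : NLP_stmt.{u} := by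
  intro k R A F K _ _ _ _ _ _ _ _ _ _ _ _ _ _ _ _ _ _ _ _ _ _ _ _ _ _ _ _ n p _ _ hFol x hx hK hF hdim hn hnp
    ω μ g hω hg hμ m _ hDis t ht0 htm δ hδ0 hδ hDisc hFix g' hPcl hg'
  haveI : Algebra.FinitePresentation k A := Algebra.Smooth.finitePresentation
  haveI : Algebra.FiniteType k A := inferInstance
  haveI : IsNoetherianRing A := Algebra.FiniteType.isNoetherianRing k A
  have hmm : m.IsMaximal := inferInstance
  have hmt : m ≠ ⊤ := hmm.ne_top
  have hmp : m.IsPrime := hmm.isPrime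
  obtain ⟨-, -, hloc⟩ := hLCF k A K n hdim
  obtain ⟨hcoord, htay, -⟩ := hloc m
  obtain ⟨y, hy, hN⟩ := hFLD k A F K n p m δ g' (NLP_res k A m) hδ hFix hPcl hg' hcoord
  obtain ⟨φ, hT⟩ := htay y hy
  set w : Fin n → ℕ := fun i => n + (i : ℕ) with hw
  obtain ⟨v, hW⟩ := hWVL k A K n m y φ hT w (Or.inr ⟨⟨1, by omega⟩, ⟨0, by omega⟩, by simp [hw]⟩)
  obtain ⟨hv1, hv2, hv3, hv4, hv5⟩ := hYWV k A K n m y φ hT w v hW
  have hv : DVal v := hW.1
  have hwn : ∀ i, n ≤ w i := fun i => Nat.le_add_right _ _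
  have hgi : ∀ i, Ge v ((w i : ℤ) + 1) (δ (algebraMap A K (y i))) := by
    intro i
    obtain ⟨c, hc, hL⟩ := hN i
    have e : δ (algebraMap A K (y i)) = (δ (algebraMap A K (y i)) - algebraMap A K (∑ l, c l • y l)) +
        algebraMap A K (∑ l, c l • y l) := by ring
    rw [e]
    refine CON_ge_add hv ?_ ?_
    · obtain ⟨a, s, hs, ha, h⟩ := hL
      rw [h]
      have h1 : Ge v ((n * 2 : ℕ) : ℤ) (algebraMap A K a) := hv5 n hwn 2 a ha
      have h2 : Ge v 0 (algebraMap A K s)⁻¹ := by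
        right
        rw [CON_inv hv _ (LB_ne (K := K) hs), hv4 s hs, neg_zero]
      have h3 := CON_ge_mul hv h1 h2
      rw [div_eq_mul_inv]
      refine CON_ge_mono ?_ h3
      have hi : (i : ℕ) < n := i.2
      rw [hw]
      push_cast
      omega
    · rw [map_sum]
      refine NLP_ge_sum hv _ _ _ fun l _ => ?_
      by_cases hl : l ≤ i
      · rw [hc l hl, zero_smul, map_zero]
        exact CON_ge_zero _
      · have hli : (i : ℕ) < (l : ℕ) := by
          rw [not_le] at hl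
          exact hl
        rw [Algebra.smul_def, map_mul]
        have h1 : Ge v ((w l : ℕ) : ℤ) (algebraMap A K (y l)) := Or.inr (hv1 l).2.ge
        have h3 := CON_ge_mul hv (hv3 (algebraMap k A (c l))) h1
        refine CON_ge_mono ?_ h3
        rw [hw]
        push_cast
        omega
  have hmain := (hPLV k R A F K n p hFol x hx hK hF hn ω μ g hω hg hμ m hDis t ht0 δ hδ0 hδ hDisc y φ hy hT w v
    (by rw [hw]; simp only; omega) (by rw [hw]; simp only; omega) hW 1 hgi).1
  have htv : (n : ℤ) ≤ v (algebraMap A K t) := by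
    have h1 : Ge v ((n * 1 : ℕ) : ℤ) (algebraMap A K t) := hv5 n hwn 1 t (by rwa [pow_one])
    have h2 := h1.resolve_left fun h0 => ht0 ((map_eq_zero_iff _ (IsFractionRing.injective A K)).1 h0)
    rwa [mul_one] at h2
  have hs := NLP_wsum n
  have hs' : 2 * ∑ i : Fin n, ((w i : ℕ) : ℤ) = 3 * n * n - n := hs
  have hnp' : (3 : ℤ) * n * n - 3 * n < 2 * p := by
    have h1 : ((3 * n * (n - 1) : ℕ) : ℤ) < ((2 * p : ℕ) : ℤ) := by exact_mod_cast hnp
    rw [Nat.cast_mul, Nat.cast_sub (by omega)] at h1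
    push_cast at h1
    linarith
  have h5 : v (algebraMap A K t) ≤ (∑ i : Fin n, ((w i : ℕ) : ℤ)) - ((p : ℤ) - 1) * 1 - 1 := by
    have := hmain
    omega
  linarith

end Pool.Agent.VF
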